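import Pool.Agent.Helper37.SU.Stmts

set_option autoImplicit false

/-! SU, module TLE: the second moment of the degree over the net, envelopes. -/

namespace Pool.Agent.Helper37.SU

open MeasureTheory Finset
open scoped ENNReal Classical

/-- The number of boxes of a transported family containing a point. -/
theorem tle_card {d : ℕ} (b : ℕ) (S : Finset (Bo d)) (f : Bo d → Bo d)
    (hf : Set.InjOn f (S : Set (Bo d))) (t : TT d) :
    ∑ B ∈ S, (if inB b (f B) t then (1 : ℝ) else 0)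
      = (((S.image f).filter (fun B => inB b B t)).card : ℝ) := by
  rw [Finset.card_filter, Nat.cast_sum, Finset.sum_image hf]
  apply Finset.sum_congr rfl
  intro B _
  split_ifs
  · simp
  · simp

theorem tle_EV_nonneg {d : ℕ} (b : ℕ) (B : Bo d) (t : TT d) : 0 ≤ EV b B t := by
  unfold EV ev
  apply Finset.prod_nonneg
  intro i _
  positivity

theorem st_TLE (hTL : ST_TL) (hTRL : ST_TRL) : ST_TLE := by
  intro b d ε C₁ hb hd hε hC₁
  obtain ⟨CT, hCT, hT⟩ := hTL b d ε C₁ hb hd hε hC₁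
  obtain ⟨CR, hCR, hR⟩ := hTRL b d hb
  refine ⟨CR ^ 2 * CT, by positivity, ?_⟩
  intro n m l x S hn hnet hl hbm hS hcard
  obtain ⟨K, w, π, hw, hwC, hlev, hinj, hEV⟩ := hR l
  have hbpos : (0 : ℝ) < (b : ℝ) := by
    have : 0 < b := by omega
    exact_mod_cast this
  set X : ℝ := (n : ℝ) ^ (d - 1) + (b : ℝ) ^ m / (b : ℝ) ^ l with hX
  have hX0 : 0 ≤ X := by positivity
  have hne : 0 ≤ (n : ℝ) ^ ε := Real.rpow_nonneg (Nat.cast_nonneg n) ε
  set M : ℝ := CT * (n : ℝ) ^ ε * X * S.card with hM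
  have hM0 : 0 ≤ M := by positivity
  -- the degrees
  set dg : (Fin d → ℤ) → Fin (b ^ m) → ℝ := fun k p =>
    (((S.image (π k)).filter (fun B => inB b B (x p))).card : ℝ) with hdg
  have hSinj : ∀ k ∈ K, Set.InjOn (π k) (S : Set (Bo d)) := by
    intro k hk
    apply (hinj k hk).mono
    intro B hB
    exact hS hB
  have hdgM : ∀ k ∈ K, ∑ p, dg k p ^ 2 ≤ M := by
    intro k hk
    have hsub : S.image (π k) ⊆ lev b d l := by
      intro B hB
      obtain ⟨B', hB', rfl⟩ := Finset.mem_image.1 hB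
      exact hlev k hk B' (hS hB')
    have hc : (S.image (π k)).card = S.card := Finset.card_image_of_injOn (hSinj k hk)
    have h1 := hT n m l x (S.image (π k)) hn hnet hl hbm hsub (by rw [hc]; exact hcard)
    rw [hc] at h1
    exact h1
  have hpt : ∀ p, ∑ B ∈ S, EV b B (x p) ≤ ∑ k ∈ K, w k * dg k p := by
    intro p
    calc ∑ B ∈ S, EV b B (x p)
        ≤ ∑ B ∈ S, ∑ k ∈ K, w k * (if inB b (π k B) (x p) then 1 else 0) :=
          Finset.sum_le_sum (fun B hB => hEV B (hS hB) (x p))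
      _ = ∑ k ∈ K, ∑ B ∈ S, w k * (if inB b (π k B) (x p) then 1 else 0) := Finset.sum_comm
      _ = ∑ k ∈ K, w k * dg k p := by
          apply Finset.sum_congr rfl
          intro k hk
          rw [← Finset.mul_sum, tle_card b S (π k) (hSinj k hk) (x p)]
  have hsq : ∀ p, (∑ B ∈ S, EV b B (x p)) ^ 2 ≤ CR * ∑ k ∈ K, w k * dg k p ^ 2 := by
    intro p
    have h0 : 0 ≤ ∑ B ∈ S, EV b B (x p) := Finset.sum_nonneg (fun B _ => tle_EV_nonneg b B _)
    have h1 : (∑ B ∈ S, EV b B (x p)) ^ 2 ≤ (∑ k ∈ K, w k * dg k p) ^ 2 :=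
      pow_le_pow_left₀ h0 (hpt p) 2
    have h2 : (∑ k ∈ K, w k * dg k p) ^ 2 ≤ (∑ k ∈ K, w k) * ∑ k ∈ K, w k * dg k p ^ 2 := by
      apply Finset.sum_sq_le_sum_mul_sum_of_sq_eq_mul
      · exact hw
      · intro k hk
        exact mul_nonneg (hw k hk) (sq_nonneg _)
      · intro k _
        ring
    have h3 : 0 ≤ ∑ k ∈ K, w k * dg k p ^ 2 :=
      Finset.sum_nonneg (fun k hk => mul_nonneg (hw k hk) (sq_nonneg _))
    exact h1.trans (h2.trans (mul_le_mul_of_nonneg_right hwC h3))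
  calc ∑ p, (∑ B ∈ S, EV b B (x p)) ^ 2
      ≤ ∑ p, CR * ∑ k ∈ K, w k * dg k p ^ 2 := Finset.sum_le_sum (fun p _ => hsq p)
    _ = CR * ∑ k ∈ K, w k * ∑ p, dg k p ^ 2 := by
        rw [← Finset.mul_sum, Finset.sum_comm]
        congr 1
        apply Finset.sum_congr rfl
        intro k _
        rw [Finset.mul_sum]
    _ ≤ CR * ∑ k ∈ K, w k * M := by
        apply mul_le_mul_of_nonneg_left _ hCR.le
        apply Finset.sum_le_sum
        intro k hk
        exact mul_le_mul_of_nonneg_left (hdgM k hk) (hw k hk)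
    _ = CR * ((∑ k ∈ K, w k) * M) := by rw [Finset.sum_mul]
    _ ≤ CR * (CR * M) := by
        apply mul_le_mul_of_nonneg_left _ hCR.le
        exact mul_le_mul_of_nonneg_right hwC hM0
    _ = CR ^ 2 * CT * (n : ℝ) ^ ε * X * S.card := by rw [hM]; ring

end Pool.Agent.Helper37.SU
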